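import Pool.Agent.H68.GHY.Targets

/-!
Board ghy, row LNZ: the L-function of a Hecke eigenform is not identically zero.
-/

set_option autoImplicit false

namespace Pool.Agent.H4.GHY

open MeasureTheory Pool.Agent.H34.GM Pool.Agent.H34.GZ Pool.Agent.H34.GU Pool.Agent.H34.GA
open Pool.Agent.H68.GHY

/-- the first eigenvalue -/
lemma lam_one {m N : ℕ} [NeZero N] {T : ℕ → Finset (ZM m)} (hT : RepsZ m T)
    {F : Mat m → VN m N → ℂ} {lam : ℕ → ℂ} (hF : HecA m N T F lam) {g : Mat m} {x : VN m N}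
    (hg : g.det ≠ 0) (hFx : F g x ≠ 0) : lam 1 = 1 := by
  have hunit : ∀ α ∈ T 1, IsUnit α := by
    intro α hα
    have h1 := hT.mem 1 le_rfl α hα
    rw [Matrix.isUnit_iff_isUnit_det, Int.isUnit_iff_natAbs_eq]
    exact h1
  obtain ⟨α₀, ⟨h0, -⟩, huniq⟩ := hT.uniq 1 le_rfl 1 (by simp)
  have hall : ∀ α ∈ T 1, α = α₀ := by
    intro α hα
    refine huniq α ⟨hα, ?_⟩
    obtain ⟨u, hu⟩ := hunit α hα
    refine ⟨((u⁻¹ : (ZM m)ˣ) : ZM m), Units.isUnit _, ?_⟩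
    rw [← hu, Units.inv_mul]
  have hT1 : T 1 = {α₀} := by
    ext α
    rw [Finset.mem_singleton]
    exact ⟨hall α, fun h => h ▸ h0⟩
  have h2 := hF.hecke 1 le_rfl g x hg
  rw [hT1, Finset.sum_singleton, hF.auto α₀ (hunit α₀ h0) g x hg, Nat.cast_one,
    Complex.one_cpow, one_mul] at h2
  have h3 : (lam 1 - 1) * F g x = 0 := by
    rw [sub_mul, one_mul, ← h2, sub_self]
  rcases mul_eq_zero.1 h3 with h4 | h4
  · exact sub_eq_zero.1 h4
  · exact absurd h4 hFx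

/-- the bound of the eigenvalues -/
lemma lam_le {m N : ℕ} [NeZero N] (hm : 1 ≤ m) {T : ℕ → Finset (ZM m)} (hT : RepsZ m T)
    {F : Mat m → VN m N → ℂ} {lam : ℕ → ℂ} (hF : HecA m N T F lam) {g : Mat m} {x : VN m N}
    (hg : g.det ≠ 0) (hFx : F g x ≠ 0) {C : ℝ} (hC : 0 < C)
    (hTn : ∀ n : ℕ, 1 ≤ n → ((T n).card : ℝ) ≤ C * (n : ℝ) ^ m) :
    ∃ C' : ℝ, 0 ≤ C' ∧ ∀ n : ℕ, 1 ≤ n → ‖lam n‖ ≤ C' * (n : ℝ) ^ m := by
  obtain ⟨B, hB⟩ := hF.bdd
  have hB0 : 0 ≤ B := (norm_nonneg _).trans (hB g x hg)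
  have hF0 : 0 < ‖F g x‖ := norm_pos_iff.2 hFx
  refine ⟨C * B / ‖F g x‖, by positivity, fun n hn => ?_⟩
  have h1 := hF.hecke n hn g x hg
  have h2 : ‖∑ α ∈ T n, F (cR α * g) (ac N α x)‖ ≤ (T n).card * B := by
    refine (norm_sum_le _ _).trans ?_
    have h3 : ∀ α ∈ T n, ‖F (cR α * g) (ac N α x)‖ ≤ B := by
      intro α hα
      refine hB _ _ ?_
      have h4 := hT.mem n hn α hα
      have h5 : α.det ≠ 0 := by
        intro h6
        rw [h6, Int.natAbs_zero] at h4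
        omega
      have h6 : (cR α).det = (α.det : ℝ) := by
        have h7 := (Int.castRingHom ℝ).map_det α
        rw [eq_comm] at h7
        exact h7
      rw [Matrix.det_mul, h6]
      exact mul_ne_zero (Int.cast_ne_zero.2 h5) hg
    refine (Finset.sum_le_sum h3).trans ?_
    rw [Finset.sum_const, nsmul_eq_mul]
  rw [h1, norm_mul, norm_mul] at h2
  have h3 : (1 : ℝ) ≤ ‖(n : ℂ) ^ (((m : ℂ) - 1) / 2)‖ := by
    rw [Complex.norm_natCast_cpow_of_pos (by omega)]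
    refine Real.one_le_rpow (by exact_mod_cast hn) ?_
    have h4 : (((m : ℂ) - 1) / 2).re = ((m : ℝ) - 1) / 2 := by
      have h5 : (((m : ℂ) - 1) / 2) = ((((m : ℝ) - 1) / 2 : ℝ) : ℂ) := by push_cast; ring
      rw [h5, Complex.ofReal_re]
    rw [h4]
    have h5 : (1 : ℝ) ≤ m := by exact_mod_cast hm
    linarith
  have h4 : ‖lam n‖ * ‖F g x‖ ≤ C * (n : ℝ) ^ m * B := by
    calc ‖lam n‖ * ‖F g x‖ ≤ ‖(n : ℂ) ^ (((m : ℂ) - 1) / 2)‖ * ‖lam n‖ * ‖F g x‖ := by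
          rw [mul_assoc]
          exact le_mul_of_one_le_left (by positivity) h3
      _ ≤ (T n).card * B := h2
      _ ≤ C * (n : ℝ) ^ m * B := mul_le_mul_of_nonneg_right (hTn n hn) hB0
  calc ‖lam n‖ = ‖lam n‖ * ‖F g x‖ / ‖F g x‖ := by field_simp
    _ ≤ C * (n : ℝ) ^ m * B / ‖F g x‖ := div_le_div_of_nonneg_right h4 hF0.le
    _ = C * B / ‖F g x‖ * (n : ℝ) ^ m := by ring

theorem pf_LNZ (hTNZ : T_TNZ) : T_LNZ := by
  intro m N _ T D hS F lam hF hNZ L hL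
  obtain ⟨g, x, hg, hFx⟩ := hNZ
  obtain ⟨C, hC, hTn⟩ := hTNZ m hS.one_le
  have h1 := lam_one hS.reps hF hg hFx
  obtain ⟨C', hC', hlam⟩ := lam_le hS.one_le hS.reps hF hg hFx hC (hTn T hS.reps)
  have hsum : Summable (fun n : ℕ => 1 / (n : ℝ) ^ 2) :=
    Real.summable_one_div_nat_pow.2 (by norm_num)
  set S : ℝ := ∑' n : ℕ, 1 / (n : ℝ) ^ 2 with hSd
  have hS0 : 0 ≤ S := tsum_nonneg fun n => by positivity
  obtain ⟨K, hK⟩ := exists_pow_lt_of_lt_one (show (0 : ℝ) < 1 / (C' * S + 1) by positivity)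
    (show (1 / 2 : ℝ) < 1 by norm_num)
  refine ⟨((m + 2 + (K + 1) : ℕ) : ℂ), fun h0 => ?_⟩
  have h2 := hL.2 ((m + 2 + (K + 1) : ℕ) : ℂ) (by
    rw [Complex.natCast_re]
    push_cast
    linarith [Nat.cast_nonneg (α := ℝ) K])
  rw [h0] at h2
  have h3 := h2.sub (hasSum_ite_eq 1 (1 : ℂ))
  have h4 : ∀ n : ℕ, ‖(if 1 ≤ n ∧ n.Coprime 1 then
      lam n * (n : ℂ) ^ (-((m + 2 + (K + 1) : ℕ) : ℂ)) else 0) - (if n = 1 then (1 : ℂ) else 0)‖ ≤
      C' * (1 / 2) ^ K * (1 / (n : ℝ) ^ 2) := by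
    intro n
    rcases Nat.lt_trichotomy n 1 with hn | hn | hn
    · have hn0 : n = 0 := by omega
      subst hn0
      simp
    · subst hn
      rw [if_pos ⟨le_rfl, Nat.coprime_one_right 1⟩, if_pos rfl, h1, Nat.cast_one,
        Complex.one_cpow, mul_one, sub_self, norm_zero]
      positivity
    · rw [if_pos ⟨hn.le, Nat.coprime_one_right n⟩, if_neg (by omega), sub_zero, norm_mul,
        Complex.cpow_neg, Complex.cpow_natCast, norm_inv, norm_pow, Complex.norm_natCast]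
      have hn0 : (0 : ℝ) < n := by exact_mod_cast (by omega : 0 < n)
      have hn2 : (2 : ℝ) ≤ n := by exact_mod_cast hn
      have h5 := hlam n hn.le
      calc ‖lam n‖ * ((n : ℝ) ^ (m + 2 + (K + 1)))⁻¹ ≤
            C' * (n : ℝ) ^ m * ((n : ℝ) ^ (m + 2 + (K + 1)))⁻¹ :=
            mul_le_mul_of_nonneg_right h5 (by positivity)
        _ = C' * (1 / (n : ℝ)) ^ (K + 1) * (1 / (n : ℝ) ^ 2) := by
            rw [pow_add, pow_add, one_div_pow, mul_inv, mul_inv]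
            have h6 : (n : ℝ) ^ m * ((n : ℝ) ^ m)⁻¹ = 1 :=
              mul_inv_cancel₀ (pow_pos hn0 m).ne'
            calc C' * (n : ℝ) ^ m * (((n : ℝ) ^ m)⁻¹ * ((n : ℝ) ^ 2)⁻¹ * ((n : ℝ) ^ (K + 1))⁻¹) =
                  C' * ((n : ℝ) ^ m * ((n : ℝ) ^ m)⁻¹) * ((n : ℝ) ^ 2)⁻¹ *
                    ((n : ℝ) ^ (K + 1))⁻¹ := by ring
              _ = _ := by
                  rw [h6]
                  ring
        _ ≤ C' * (1 / 2) ^ K * (1 / (n : ℝ) ^ 2) := by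
            refine mul_le_mul_of_nonneg_right ?_ (by positivity)
            refine mul_le_mul_of_nonneg_left ?_ hC'
            have h6 : 1 / (n : ℝ) ≤ 1 / 2 := one_div_le_one_div_of_le (by norm_num) hn2
            calc (1 / (n : ℝ)) ^ (K + 1) ≤ (1 / 2) ^ (K + 1) :=
                  pow_le_pow_left₀ (by positivity) h6 _
              _ ≤ (1 / 2) ^ K := pow_le_pow_of_le_one (by norm_num) (by norm_num) (by omega)
  have h5 : HasSum (fun n : ℕ => C' * (1 / 2) ^ K * (1 / (n : ℝ) ^ 2)) (C' * (1 / 2) ^ K * S) :=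
    hsum.hasSum.mul_left _
  have h6 := h3.norm_le_of_bounded h5 h4
  rw [zero_sub, norm_neg, norm_one] at h6
  have h7 : C' * (1 / 2) ^ K * S < 1 := by
    have h8 : (1 / 2 : ℝ) ^ K * (C' * S + 1) < 1 := by
      rw [lt_div_iff₀ (by positivity)] at hK
      exact hK
    have h9 : (0 : ℝ) < (1 / 2) ^ K := by positivity
    calc C' * (1 / 2) ^ K * S = (1 / 2) ^ K * (C' * S) := by ring
      _ < (1 / 2) ^ K * (C' * S + 1) := mul_lt_mul_of_pos_left (by linarith) h9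
      _ < 1 := h8
  linarith

end Pool.Agent.H4.GHY
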